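import Pool.Agent.Q212.ZA4

/-!
# No finite-to-one map from the finitary partitions of an infinite set to the set

In every model of Zermelo set theory (so in every model of ZF): if a set `a` is infinite, then
there is no finite-to-one function from the set of all finitary partitions of `a` to `a`.
-/

namespace Pool.Agent.Results.MP_ae0fd6_lc.NoFiniteToOne

open FirstOrder FirstOrder.Language
open Pool.Agent.Helper672.Plain (LSet Zermelo)
open Pool.Agent.H310Cards
open Pool.Agent.Q212.ZADefs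

universe u

theorem result (M : Type u) [LSet.Structure M] [Zermelo M] (a B f : M)
    (hB : IsFinPartSet B a) (ha : ¬ IsFinite a) : ¬ IsFinToOne f B a := by
  letI := Pool.Agent.Helper672.Plain.toL (M := M)
  letI : Pool.Agent.Helper672.ZFA.IsModel M := Pool.Agent.Helper672.Plain.isModel_toL
  intro hf
  have hS := fun z : M => Pool.Agent.Q212.ZA.mem_finPartSet (z := z) hB
  obtain ⟨h, hh, hh'⟩ := Pool.Agent.H310.exists_fun
    (α := Pool.Agent.Q212.ZA.IBp M (Pool.Agent.Helper672.ZFA.El a))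
    (β := Pool.Agent.Helper672.ZFA.El a) hf.1
    (fun x => (hS _).2 ⟨x, rfl⟩) fun z hz => Pool.Agent.H310.mem_El.1 hz
  refine Pool.Agent.Q212.ZA.no_fto_bp
    (Pool.Agent.H310.not_finP (fun z => Pool.Agent.H310.mem_El) ha) hh fun y => ?_
  have hI : Pool.Agent.Helper672.ZFA.Int M (fun σ => h σ = y) :=
    Pool.Agent.Helper672.ZFA.Int.eq hh (Pool.Agent.Helper672.ZFA.IntF.const y)
  refine Pool.Agent.H310.finP_of_finite (t := hI.small.elt) hI (fun z => hI.small.mem) ?_
  refine hf.2 y.1 y.2 _ fun x => ?_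
  refine (hI.small.mem (z := x)).trans ⟨?_, fun hx => ?_⟩
  · rintro ⟨σ, hσ, rfl⟩
    exact (hh' σ y).1 hσ
  · obtain ⟨q, h1, h2⟩ := hx
    obtain ⟨x', y', h3, h4, h5⟩ := hf.1.1 q h2
    obtain ⟨rfl, -⟩ := Pool.Agent.Helper672.ZFA.op_inj
      ((Pool.Agent.H310.ordPair_iff.1 h1).symm.trans (Pool.Agent.H310.ordPair_iff.1 h5))
    obtain ⟨σ, rfl⟩ := (hS x).1 h3
    exact ⟨σ, (hh' σ y).2 ⟨q, h1, h2⟩, rfl⟩

end Pool.Agent.Results.MP_ae0fd6_lc.NoFiniteToOne
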